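import Pool.Agent.H57.LH.Targets2

/-!
# All first-order reducts of structures with local completions: row MNC
-/

set_option autoImplicit false
set_option linter.unusedVariables false

namespace Pool.Agent.H44.LH

open Pool.Agent.H68.BP Pool.Agent.H58.SF Pool.Agent.H53.GC Pool.Agent.H53.NR
open Pool.Agent.H53.GR (Dm Ps)
open Pool.Agent.H57.AR (tp ty tpo pullO Ty OT HomEq El ElD FamR Od GmR INJ lft)
open Pool.Agent.H57.SO (Pal Col vt Bh Sbn fib sigF)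
open Pool.Agent.H57.EQ (Cx T_CYF)
open Pool.Agent.H57.LCI (LocalCompletions Pre Realizes)
open Pool.Agent.H44.KR (HB Amg Tyi Rz Rlz Clp LInj Prm TpOn RmL LcN Pl lr blk Fv kv RkI Kd JJ Yc
  IsTh Can Plf Pls)
open Pool.Agent.H57.LH Function

/-- types of subtuples -/
theorem tp_sub {V W W' : Type} {ρ : Sig} {𝔹 : Str ρ V} {x y : W → V} (h : tp 𝔹 x = tp 𝔹 y)
    (z : W' → W) : tp 𝔹 (fun w => x (z w)) = tp 𝔹 (fun w => y (z w)) := by
  refine Prod.ext ?_ ?_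
  · funext a b
    exact congrFun (congrFun (congrArg Prod.fst h) (z a)) (z b)
  · funext l w
    exact congrFun (congrFun (congrArg Prod.snd h) l) (fun i => z (w i))

/-- the type of a pair and the type over one constant -/
theorem tp_pair_iff {V : Type} {ρ : Sig} {𝔹 : Str ρ V} (e x y : V) :
    tp 𝔹 (Sum.elim (fun _ : Unit => x) (fun _ : Fin 1 => e)) =
      tp 𝔹 (Sum.elim (fun _ : Unit => y) (fun _ : Fin 1 => e)) ↔
      tp 𝔹 ![x, e] = tp 𝔹 ![y, e] := by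
  have h1 : ∀ x : V, (fun w => (![x, e] : Fin 2 → V) ((Sum.elim (fun _ => 0) (fun _ => 1) :
      Unit ⊕ Fin 1 → Fin 2) w)) = Sum.elim (fun _ : Unit => x) (fun _ : Fin 1 => e) := by
    intro x
    funext w
    rcases w with w | w <;> rfl
  have h2 : ∀ x : V, (fun w => (Sum.elim (fun _ : Unit => x) (fun _ : Fin 1 => e))
      ((![Sum.inl (), Sum.inr 0] : Fin 2 → Unit ⊕ Fin 1) w)) = ![x, e] := by
    intro x
    funext w
    fin_cases w <;> rfl
  constructor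
  · intro h
    rw [← h2 x, ← h2 y]
    exact tp_sub h _
  · intro h
    rw [← h1 x, ← h1 y]
    exact tp_sub h _

theorem ty_of_pair {V : Type} {ρ : Sig} {𝔹 : Str ρ V} {e x y : V}
    (h : tp 𝔹 ![x, e] = tp 𝔹 ![y, e]) : ty 𝔹 x = ty 𝔹 y := by
  funext l
  exact congrFun (congrFun (congrArg Prod.snd h) l) (fun _ => 0)

theorem eq_of_pair {V : Type} {ρ : Sig} {𝔹 : Str ρ V} {e x y : V}
    (h : tp 𝔹 ![x, e] = tp 𝔹 ![y, e]) : x = e ↔ y = e :=
  iff_of_eq (congrFun (congrFun (congrArg Prod.fst h) 0) 1)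

theorem pf_MNC (hAMC : T_AMC) (hEXS : T_EXS) (hEXN : T_EXN) (hEXO : T_EXO) (hEXP : T_EXP) :
    T_MNC := by
  classical
  intro A V σ ρ 𝔻 𝔸 𝔹 hM hcl s hs hcs
  by_contra hbl
  obtain ⟨e, sg, hes, hE⟩ := hcl s hs hcs
  have hB := hM.prs.hb
  let cs : Fin 1 → V := fun _ => e
  let T : Set V := {y | y ≠ e ∧ ty 𝔹 y ≠ s ∧ tp 𝔹 ![y, e] = sg (ty 𝔹 y)}
  have hinv : InvT 𝔹 cs T := by
    refine ⟨fun j hj => hj.1 rfl, fun x y hxy hx => ?_⟩
    have h1 : tp 𝔹 ![x, e] = tp 𝔹 ![y, e] := (tp_pair_iff e x y).1 hxy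
    refine ⟨fun h => hx.1 ((eq_of_pair h1).2 h), fun h => hx.2.1 ((ty_of_pair h1).trans h), ?_⟩
    rw [← h1, hx.2.2, ty_of_pair h1]
  have htyc : TyC 𝔸 𝔹 cs := fun l x y hx hxy =>
    hM.prs.tyi l x y hx (tp_sub hxy Sum.inl)
  have hhmg : Hmg 𝔹 := by
    intro W _ B x y hxy
    obtain ⟨x', h1, h2, -⟩ := hB.amg W B x y ∅ hxy
    exact ⟨x', h1, h2⟩
  have hP : Prs (pull 𝔸 (dEx cs id T)) (ExB 𝔹 cs T 1) :=
    hEXP V σ ρ 𝔸 𝔹 1 cs T 1 id hB.ar hM.prs.cnt hB.ne (fun i j _ => Subsingleton.elim i j) hhmg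
      (hAMC V ρ 𝔹 1 cs hB.amg) hB.lc hinv htyc ⟨Sum.inr (0, 0)⟩
  obtain ⟨hS1, hS2, hS3⟩ := hEXS V ρ 𝔹 1 cs T 1 hB.ar hinv
  have heq : HomEq 𝔻 (pull 𝔸 (dEx cs id T)) := by
    intro n 𝕏
    refine (hM.heq n 𝕏).trans ⟨?_, ?_⟩
    · rintro ⟨f, hf⟩
      obtain ⟨ψ, h1, h2, h3, h4⟩ := hE (Fin n) f
      have hT : ∀ w, ty 𝔹 (f w) ≠ s → ψ w ∈ T := by
        intro w hw
        refine ⟨fun h => hw ?_, fun h => hw ((h3 w).symm.trans h), ?_⟩
        · rw [← h3 w, h]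
          exact hes
        · rw [h4 w, h3 w]
      let g : Fin n → ExD T 1 := fun w =>
        if h : ty 𝔹 (f w) = s then Sum.inr (0, 0) else Sum.inl ⟨ψ w, hT w h⟩
      have hg : ∀ w, dEx cs id T (g w) = ψ w := by
        intro w
        by_cases h : ty 𝔹 (f w) = s
        · have h5 : g w = Sum.inr (0, 0) := dif_pos h
          rw [h5]
          exact (h2 w h).symm
        · have h5 : g w = Sum.inl ⟨ψ w, hT w h⟩ := dif_neg h
          rw [h5]
          rfl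
      refine ⟨g, fun l z hz => ?_⟩
      have h6 : (fun i => dEx cs id T (g (z i))) = fun i => ψ (z i) := funext fun i => hg _
      show 𝔸 l (fun i => dEx cs id T (g (z i)))
      rw [h6]
      exact h1 l z fun _ => hf l z hz
    · rintro ⟨f, hf⟩
      exact ⟨fun w => dEx cs id T (f w), fun l z hz => hf l z hz⟩
  obtain ⟨hm1, hm2⟩ := hM.min _ _ _ _ hP heq
  -- types
  let χ₀ : ExD T 1 → SS 𝔹 := Sum.elim (fun y => vs 𝔹 (y : V)) (fun _ => ⟨s, hs⟩)
  have hχ : ∀ a b : ExD T 1, ty (ExB 𝔹 cs T 1) a = ty (ExB 𝔹 cs T 1) b ↔ χ₀ a = χ₀ b := by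
    have hne : ∀ y : T, vs 𝔹 (y : V) ≠ (⟨s, hs⟩ : SS 𝔹) := fun y h =>
      y.2.2.1 (congrArg Subtype.val h)
    rintro (y | p) (y' | q)
    · rw [hS1 y y']
      constructor
      · intro h
        exact Subtype.ext (ty_of_pair ((tp_pair_iff e _ _).1 h))
      · intro h
        have h1 : ty 𝔹 (y : V) = ty 𝔹 (y' : V) := congrArg Subtype.val h
        refine (tp_pair_iff e _ _).2 ?_
        rw [y.2.2.2, y'.2.2.2, h1]
    · exact ⟨fun h => absurd h (hS2 y q), fun h => absurd h (hne y)⟩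
    · exact ⟨fun h => absurd h.symm (hS2 y' p), fun h => absurd h.symm (hne y')⟩
    · exact ⟨fun _ => rfl, fun _ => (hS3 p q).2 (Subsingleton.elim _ _)⟩
  choose r hr using fun u : SS (ExB 𝔹 cs T 1) => u.2
  have hinj : Injective fun u : SS (ExB 𝔹 cs T 1) => χ₀ (r u) := by
    intro u u' h
    refine Subtype.ext ?_
    rw [← hr u, ← hr u']
    exact (hχ _ _).2 h
  have hcard : nT (ExB 𝔹 cs T 1) = nT 𝔹 :=
    le_antisymm (Nat.card_le_card_of_injective _ hinj) hm1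
  have hbij : Bijective fun u : SS (ExB 𝔹 cs T 1) => χ₀ (r u) :=
    hinj.bijective_of_nat_card_le hm1
  have hex : ∀ t : {t : Fin ρ.m → Prop // Blind 𝔸 𝔹 t}, ∃ y : T, ty 𝔹 (y : V) = t.1 := by
    rintro ⟨t, ht⟩
    obtain ⟨u, hu⟩ := hbij.2 ⟨t, ht.rlz⟩
    have hu' : χ₀ (r u) = ⟨t, ht.rlz⟩ := hu
    rcases hru : r u with y | p
    · rw [hru] at hu'
      exact ⟨y, congrArg Subtype.val hu'⟩
    · rw [hru] at hu'
      have h1 : s = t := congrArg Subtype.val hu'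
      rw [← h1] at ht
      exact absurd ht hbl
  choose y hy using hex
  let g : Option {t : Fin ρ.m → Prop // Blind 𝔸 𝔹 t} →
      {u // Blind (pull 𝔸 (dEx cs id T)) (ExB 𝔹 cs T 1) u} := fun o =>
    match o with
    | none => ⟨_, hEXN V σ ρ 𝔸 𝔹 1 cs T 1 id hB.ar hinv (0, 0)⟩
    | some t => ⟨_, hEXO V σ ρ 𝔸 𝔹 1 cs T 1 id hB.ar hinv (y t) (by rw [hy t]; exact t.2)⟩
  have hg : Injective g := by
    rintro (_ | t) (_ | t') h
    · rfl
    · exact absurd (congrArg Subtype.val h).symm (hS2 (y t') (0, 0))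
    · exact absurd (congrArg Subtype.val h) (hS2 (y t) (0, 0))
    · have h1 : ty (ExB 𝔹 cs T 1) (Sum.inl (y t)) = ty (ExB 𝔹 cs T 1) (Sum.inl (y t')) :=
        congrArg Subtype.val h
      have h2 : vs 𝔹 ((y t : T) : V) = vs 𝔹 ((y t' : T) : V) := (hχ _ _).1 h1
      have h3 : t = t' := by
        refine Subtype.ext ?_
        rw [← hy t, ← hy t']
        exact congrArg Subtype.val h2
      rw [h3]
  have h7 := Nat.card_le_card_of_injective g hg
  rw [Finite.card_option] at h7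
  have h8 : nB (pull 𝔸 (dEx cs id T)) (ExB 𝔹 cs T 1) ≤ nB 𝔸 𝔹 := hm2 hcard
  unfold nB at h8
  omega

end Pool.Agent.H44.LH
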